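import Mathlib

set_option autoImplicit false

namespace Pool.Agent.Lib.MP_337ab5_co

/-- A history (the entries chosen so far, first word then second word) is legal if no value is
repeated inside a word. -/
def Legal (N : ℕ) (h : List (Fin N)) : Prop := (h.take N).Nodup ∧ (h.drop N).Nodup

/-- The player who chooses the entries number `t` (counted from `0`, `t < 2 N`) with `mine t` has a
strategy (a map from histories to moves, legal whenever it is his turn) such that every play
following it ends in a pair of permutations satisfying `goal`. -/
def Wins (N : ℕ) (mine : ℕ → Prop)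
    (goal : Equiv.Perm (Fin N) → Equiv.Perm (Fin N) → Prop) : Prop :=
  ∃ s : List (Fin N) → Fin N,
    (∀ h : List (Fin N), h.length < 2 * N → mine h.length → Legal N h → Legal N (h ++ [s h])) ∧
    ∀ σ τ : Equiv.Perm (Fin N),
      (∀ (h : List (Fin N)) (v : Fin N) (t : List (Fin N)),
        List.ofFn σ ++ List.ofFn τ = h ++ v :: t → mine h.length → v = s h) → goal σ τ

end Pool.Agent.Lib.MP_337ab5_co
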