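import Mathlib
import Pool.Agent.Lib.MP_337ab5_co.Defs

set_option autoImplicit false

namespace Pool.Agent.Lib.MP_337ab5_co

open Equiv

variable {N : ℕ}

/-- One-word game. -/
def Forces (N : ℕ) (mine : ℕ → Prop) (P : Perm (Fin N) → Prop) : Prop :=
  ∃ s : List (Fin N) → Fin N,
    (∀ h : List (Fin N), h.length < N → h.Nodup → s h ∉ h) ∧
    ∀ σ : Perm (Fin N), (∀ (h : List (Fin N)) (v : Fin N) (t : List (Fin N)),
        List.ofFn σ = h ++ v :: t → mine h.length → v = s h) → P σ

theorem exists_not_mem (h : List (Fin N)) (hl : h.length < N) : ∃ v, v ∉ h := by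
  by_contra hc
  push Not at hc
  have h1 : (Finset.univ : Finset (Fin N)) ⊆ h.toFinset := fun v _ => List.mem_toFinset.mpr (hc v)
  have h2 := Finset.card_le_card h1
  have h3 := List.toFinset_card_le h
  simp at h2
  omega

theorem Forces.mono {mine : ℕ → Prop} {P Q : Perm (Fin N) → Prop} (h : Forces N mine P)
    (hPQ : ∀ σ, P σ → Q σ) : Forces N mine Q := by
  obtain ⟨s, h1, h2⟩ := h
  exact ⟨s, h1, fun σ hσ => hPQ σ (h2 σ hσ)⟩

theorem forces_true (hN : 0 < N) (mine : ℕ → Prop) : Forces N mine (fun _ => True) := by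
  classical
  refine ⟨fun h => if hl : h.length < N then (exists_not_mem h hl).choose else ⟨0, hN⟩, ?_,
    fun _ _ => trivial⟩
  intro h hl _
  simp only [hl, dif_pos]
  exact (exists_not_mem h hl).choose_spec

theorem forces_of_inv (hN : 0 < N) (mine : ℕ → Prop) (J : ℕ → Perm (Fin N) → Prop)
    (h0 : ∀ σ, J 0 σ)
    (hmine : ∀ (k : ℕ) (hk : k < N), mine k → ∀ σ, J k σ → ∃ v : Fin N,
      (∀ i : Fin N, i.val < k → σ i ≠ v) ∧
      ∀ σ' : Perm (Fin N), (∀ i : Fin N, i.val < k → σ' i = σ i) → σ' ⟨k, hk⟩ = v → J (k + 1) σ')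
    (hopp : ∀ k < N, ¬ mine k → ∀ σ, J k σ → J (k + 1) σ) : Forces N mine (J N) := by
  classical
  have key : ∀ h : List (Fin N), ∃ v : Fin N, (h.length < N → v ∉ h) ∧
      ∀ (hk : h.length < N), mine h.length → ∀ σ : Perm (Fin N),
        h = (List.ofFn σ).take h.length → J h.length σ → σ ⟨h.length, hk⟩ = v →
        J (h.length + 1) σ := by
    intro h
    by_cases hk : h.length < N
    swap
    · exact ⟨⟨0, hN⟩, fun h' => absurd h' hk, fun h' => absurd h' hk⟩
    by_cases hc : mine h.length ∧ ∃ σ : Perm (Fin N),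
        h = (List.ofFn σ).take h.length ∧ J h.length σ
    · obtain ⟨hm, σ, hσ, hJ⟩ := hc
      obtain ⟨v, hv1, hv2⟩ := hmine _ hk hm σ hJ
      refine ⟨v, fun _ hv => ?_, fun _ _ σ' hσ' _ hv => hv2 σ' (fun i hi => ?_) hv⟩
      · rw [hσ] at hv
        obtain ⟨i, hi, hi'⟩ := List.mem_iff_getElem.mp hv
        simp only [List.length_take, List.length_ofFn] at hi
        refine hv1 ⟨i, by omega⟩ (by simp only; omega) ?_
        simpa using hi'
      · have e : (List.ofFn σ').take h.length = (List.ofFn σ).take h.length := hσ'.symm.trans hσ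
        have := congrArg (fun l => l[i.val]?) e
        simpa [List.getElem?_take, hi] using this
    · obtain ⟨v, hv⟩ := exists_not_mem h hk
      exact ⟨v, fun _ => hv, fun _ hm σ hσ hJ _ => absurd ⟨hm, σ, hσ, hJ⟩ hc⟩
  choose s hs1 hs2 using key
  refine ⟨s, fun h hl _ => hs1 h hl, fun σ hσ => ?_⟩
  have : ∀ k ≤ N, J k σ := by
    intro k
    induction k with
    | zero => exact fun _ => h0 σ
    | succ k ih =>
      intro hk
      have hk' : k < N := hk
      by_cases hm : mine k
      · have hl : ((List.ofFn σ).take k).length = k := by simp; omega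
        have h1 := hs2 ((List.ofFn σ).take k) (by omega) (by rw [hl]; exact hm) σ (by rw [hl])
          (by rw [hl]; exact ih hk'.le) (by
            have := hσ ((List.ofFn σ).take k) (σ ⟨k, hk'⟩) ((List.ofFn σ).drop (k + 1)) (by
              conv_lhs => rw [← List.take_append_drop k (List.ofFn σ)]
              rw [List.drop_eq_getElem_cons (by simpa using hk')]
              simp) (by rw [hl]; exact hm)
            rw [← this]
            congr 1
            exact Fin.ext hl)
        rwa [hl] at h1
      · exact hopp k hk' hm σ (ih hk'.le)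
  exact this N le_rfl

theorem wins_of_forces (mine : ℕ → Prop) (P : Perm (Fin N) → Prop)
    (goal : Perm (Fin N) → Perm (Fin N) → Prop) (h1 : Forces N mine P)
    (h2 : ∀ σ, P σ → Forces N (fun t => mine (N + t)) (goal σ)) : Wins N mine goal := by
  classical
  obtain ⟨s₁, hs₁, hw₁⟩ := h1
  have key : ∀ l : List (Fin N), ∃ s : List (Fin N) → Fin N,
      (∀ h : List (Fin N), h.length < N → h.Nodup → s h ∉ h) ∧
      ∀ σ : Perm (Fin N), l = List.ofFn σ → P σ → ∀ τ : Perm (Fin N),
        (∀ (h : List (Fin N)) (v : Fin N) (t : List (Fin N)),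
          List.ofFn τ = h ++ v :: t → mine (N + h.length) → v = s h) → goal σ τ := by
    intro l
    by_cases hc : ∃ σ : Perm (Fin N), l = List.ofFn σ ∧ P σ
    · obtain ⟨σ, hl, hP⟩ := hc
      obtain ⟨s, hs, hw⟩ := h2 σ hP
      refine ⟨s, hs, fun σ' hσ' _ τ hτ => ?_⟩
      have : σ' = σ := by
        have := List.ofFn_injective (hσ'.symm.trans hl)
        exact DFunLike.coe_injective this
      rw [this]
      exact hw τ hτ
    · exact ⟨s₁, hs₁, fun σ hσ hP => absurd ⟨σ, hσ, hP⟩ hc⟩
  choose s₂ hs₂ hw₂ using key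
  refine ⟨fun h => if h.length < N then s₁ h else s₂ (h.take N) (h.drop N), ?_, ?_⟩
  · intro h hl _ hleg
    by_cases hk : h.length < N
    · simp only [hk, if_pos]
      have e1 : h.take N = h := List.take_of_length_le hk.le
      refine ⟨?_, ?_⟩
      · rw [List.take_of_length_le (by simp; omega)]
        have := hleg.1
        rw [e1] at this
        exact List.nodup_append.mpr ⟨this, List.nodup_singleton _, fun a ha b hb => by
          rw [List.mem_singleton.mp hb]; rintro rfl; exact hs₁ h hk this ha⟩
      · rw [List.drop_of_length_le (by simp; omega)]; exact List.nodup_nil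
    · simp only [hk, if_false]
      refine ⟨?_, ?_⟩
      · rw [List.take_append_of_le_length (by omega)]; exact hleg.1
      · rw [List.drop_append_of_le_length (by omega)]
        exact List.nodup_append.mpr ⟨hleg.2, List.nodup_singleton _, fun a ha b hb => by
          rw [List.mem_singleton.mp hb]; rintro rfl
          exact hs₂ _ _ (by simp; omega) hleg.2 ha⟩
  · intro σ τ hc
    have hP : P σ := by
      apply hw₁ σ
      intro h v t e hm
      have hl : h.length < N := by
        have := congrArg List.length e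
        simp at this
        omega
      have := hc h v (t ++ List.ofFn τ) (by rw [e]; simp) hm
      simpa [hl] using this
    apply hw₂ (List.ofFn σ) σ rfl hP τ
    intro h v t e hm
    have := hc (List.ofFn σ ++ h) v t (by rw [e]; simp) (by simpa using hm)
    simpa using this

theorem exists_perm_of_nodup (l : List (Fin N)) (hl : l.length = N) (hn : l.Nodup) :
    ∃ σ : Perm (Fin N), List.ofFn σ = l := by
  have hinj : Function.Injective (fun i : Fin N => l[i.val]'(by omega)) := by
    intro i j hij
    exact Fin.ext ((List.Nodup.getElem_inj_iff hn).mp hij)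
  refine ⟨Equiv.ofBijective _ (Finite.injective_iff_bijective.mp hinj), ?_⟩
  apply List.ext_getElem (by simp [hl])
  intro i h1 h2
  simp

/-- The two players cannot both have winning strategies. -/
theorem not_wins_both (mine : ℕ → Prop) (goal : Perm (Fin N) → Perm (Fin N) → Prop)
    (mine' : ℕ → Prop) (goal' : Perm (Fin N) → Perm (Fin N) → Prop)
    (hm : ∀ t, mine' t ↔ ¬ mine t) (hg : ∀ σ τ, goal σ τ → goal' σ τ → False)
    (h1 : Wins N mine goal) (h2 : Wins N mine' goal') : False := by
  classical
  obtain ⟨s, hs, hw⟩ := h1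
  obtain ⟨s', hs', hw'⟩ := h2
  let f : List (Fin N) → Fin N := fun h => if mine h.length then s h else s' h
  let w : ℕ → List (Fin N) := fun k => Nat.rec [] (fun _ h => h ++ [f h]) k
  have wsucc : ∀ k, w (k + 1) = w k ++ [f (w k)] := fun _ => rfl
  have wlen : ∀ k, (w k).length = k := by
    intro k
    induction k with
    | zero => rfl
    | succ k ih => rw [wsucc]; simp [ih]
  have wleg : ∀ k ≤ 2 * N, Legal N (w k) := by
    intro k
    induction k with
    | zero => intro _; exact ⟨by simp [w], by simp [w]⟩
    | succ k ih =>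
      intro hk
      rw [wsucc]
      by_cases hmk : mine (w k).length
      · simp only [f, hmk, if_pos]
        exact hs _ (by rw [wlen]; omega) hmk (ih (by omega))
      · simp only [f, hmk, if_false]
        exact hs' _ (by rw [wlen]; omega) ((hm _).mpr hmk) (ih (by omega))
  have wpre : ∀ k j, ∃ t, w (j + k) = w j ++ t := by
    intro k j
    induction k with
    | zero => exact ⟨[], by simp⟩
    | succ k ih =>
      obtain ⟨t, ht⟩ := ih
      exact ⟨t ++ [f (w (j + k))], by rw [← add_assoc, wsucc, ← List.append_assoc, ← ht]⟩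
  obtain ⟨σ, hσ⟩ := exists_perm_of_nodup ((w (2 * N)).take N) (by simp [wlen]; omega)
    (wleg _ le_rfl).1
  obtain ⟨τ, hτ⟩ := exists_perm_of_nodup ((w (2 * N)).drop N) (by simp [wlen]; omega)
    (wleg _ le_rfl).2
  have key : ∀ (h : List (Fin N)) (v : Fin N) (t : List (Fin N)),
      List.ofFn σ ++ List.ofFn τ = h ++ v :: t → v = f h := by
    intro h v t e
    rw [hσ, hτ, List.take_append_drop] at e
    have hl : h.length + 1 ≤ 2 * N := by
      have := congrArg List.length e
      simp [wlen] at this
      omega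
    obtain ⟨t', ht'⟩ := wpre (2 * N - (h.length + 1)) (h.length + 1)
    rw [Nat.add_sub_cancel' hl, e, wsucc, List.append_assoc] at ht'
    obtain ⟨e1, e2⟩ := List.append_inj ht' (by rw [wlen])
    rw [← e1] at e2
    exact (List.cons.inj e2).1
  refine hg σ τ (hw σ τ fun h v t e hmk => ?_) (hw' σ τ fun h v t e hmk => ?_)
  · rw [key h v t e]; simp only [f, hmk, if_pos]
  · rw [key h v t e]; simp only [f, (hm _).mp hmk, if_false]

end Pool.Agent.Lib.MP_337ab5_co
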