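import Mathlib
import Pool.Agent.Lib.MP_337ab5_co.Frame

set_option autoImplicit false

namespace Pool.Agent.Lib.MP_337ab5_co

open Equiv

variable {N : ℕ}

theorem perm_eq_of_agree {σ τ : Perm (Fin N)} (h : ∀ i : Fin N, i.val + 1 < N → σ i = τ i) :
    σ = τ := by
  ext1 i
  by_cases hi : i.val + 1 < N
  · exact h i hi
  · obtain ⟨j, hj⟩ := τ.surjective (σ i)
    by_cases hj' : j.val + 1 < N
    · have := σ.injective ((h j hj').trans hj)
      rw [this] at hj'
      exact absurd hj' hi
    · have : j = i := Fin.ext (by omega)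
      rw [← hj, this]

/-- The player who fills the last but one position decides the sign. -/
theorem forces_sign (hN : 2 ≤ N) (mine : ℕ → Prop) (hm : mine (N - 2)) (ε : ℤˣ) :
    Forces N mine (fun σ => Perm.sign σ = ε) := by
  refine (forces_of_inv (by omega) mine (fun k σ => N ≤ k + 1 → Perm.sign σ = ε)
    (fun σ h => by omega) ?_ ?_).mono (fun σ h => h (by omega))
  · intro k hk _ σ hJ
    by_cases h1 : N ≤ k + 1
    · refine ⟨σ ⟨k, hk⟩, fun i hi e => ?_, fun σ' h2 _ _ => ?_⟩
      · have := congrArg Fin.val (σ.injective e)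
        simp only at this
        omega
      · rw [perm_eq_of_agree (σ := σ') (τ := σ) (fun i hi => h2 i (by omega))]
        exact hJ h1
    · have key : ∃ ρ : Perm (Fin N), (∀ i : Fin N, i.val < k → ρ i = σ i) ∧ Perm.sign ρ = ε := by
        by_cases h2 : Perm.sign σ = ε
        · exact ⟨σ, fun _ _ => rfl, h2⟩
        · refine ⟨σ * swap ⟨k, hk⟩ ⟨k + 1, by omega⟩, fun i hi => ?_, ?_⟩
          · rw [Perm.mul_apply, swap_apply_of_ne_of_ne]
            · intro e; have := congrArg Fin.val e; simp only at this; omega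
            · intro e; have := congrArg Fin.val e; simp only at this; omega
          · rw [Perm.sign_mul, Perm.sign_swap (by simp)]
            rcases Int.units_eq_one_or (Perm.sign σ) with h | h <;>
              rcases Int.units_eq_one_or ε with h' | h' <;> simp_all
      obtain ⟨ρ, hρ1, hρ2⟩ := key
      refine ⟨ρ ⟨k, hk⟩, fun i hi e => ?_, fun σ' h2 h3 h4 => ?_⟩
      · rw [← hρ1 i hi] at e
        have := congrArg Fin.val (ρ.injective e)
        simp only at this
        omega
      · rw [perm_eq_of_agree (σ := σ') (τ := ρ) (fun i hi => ?_)]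
        · exact hρ2
        · by_cases h5 : i.val < k
          · rw [h2 i h5, hρ1 i h5]
          · have : i = ⟨k, hk⟩ := Fin.ext (by simp only; omega)
            rw [this, h3]
  · intro k hk hmk σ hJ h1
    apply hJ
    by_contra h2
    exact hmk (by rw [show k = N - 2 by omega]; exact hm)

theorem closure_ne_top_of_sign (hN : 2 ≤ N) {σ τ : Perm (Fin N)} (hσ : Perm.sign σ = 1)
    (hτ : Perm.sign τ = 1) : Subgroup.closure {σ, τ} ≠ ⊤ := by
  intro h
  have h1 : Subgroup.closure {σ, τ} ≤ alternatingGroup (Fin N) := by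
    rw [Subgroup.closure_le]
    rintro x (rfl | rfl)
    · exact Perm.mem_alternatingGroup.mpr hσ
    · exact Perm.mem_alternatingGroup.mpr hτ
  rw [h] at h1
  have h2 := Perm.mem_alternatingGroup.mp
    (h1 (Subgroup.mem_top (swap (⟨0, by omega⟩ : Fin N) ⟨1, by omega⟩)))
  rw [Perm.sign_swap (by simp)] at h2
  exact absurd h2 (by decide)

/-- The partner of `i` in the pairing `{0,1}, {2,3}, …` for even `N`. -/
def partner (hN : N % 2 = 0) (i : Fin N) : Fin N :=
  ⟨if i.val % 2 = 0 then i.val + 1 else i.val - 1, by have := i.2; split_ifs <;> omega⟩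

theorem partner_partner (hN : N % 2 = 0) (i : Fin N) : partner hN (partner hN i) = i := by
  apply Fin.ext
  simp only [partner]
  split_ifs <;> omega

theorem partner_ne (hN : N % 2 = 0) (i : Fin N) : partner hN i ≠ i := by
  intro h
  have := congrArg Fin.val h
  simp only [partner] at this
  split_ifs at this <;> omega

theorem forces_pair (hN0 : 0 < N) (hN : N % 2 = 0) (mine : ℕ → Prop)
    (hm : ∀ k < N, k % 2 = 1 → mine k) (hm' : ∀ k < N, mine k → k % 2 = 1) :
    Forces N mine (fun σ => ∀ i, σ (partner hN i) = partner hN (σ i)) := by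
  refine (forces_of_inv hN0 mine
    (fun k σ => ∀ i : Fin N, i.val < k → (partner hN i).val < k →
      σ (partner hN i) = partner hN (σ i))
    (fun σ i h => by omega) ?_ ?_).mono (fun σ h i => h i i.2 (partner hN i).2)
  · intro k hk hmk σ hJ
    have hk1 := hm' k hk hmk
    have hp : (partner hN ⟨k, hk⟩).val = k - 1 := by simp [partner, hk1]
    refine ⟨partner hN (σ (partner hN ⟨k, hk⟩)), fun i hi e => ?_, fun σ' h2 h3 i h4 h5 => ?_⟩
    · by_cases h6 : (partner hN i).val < k
      · have h7 := hJ i hi h6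
        rw [e, partner_partner] at h7
        have h8 := congrArg (partner hN) (σ.injective h7)
        rw [partner_partner, partner_partner] at h8
        have := congrArg Fin.val h8
        simp only at this
        omega
      · have h7 : i = partner hN ⟨k, hk⟩ := by
          apply Fin.ext
          rw [hp]
          simp only [partner] at h6
          split_ifs at h6 <;> omega
        rw [← h7] at e
        exact partner_ne hN _ e.symm
    · by_cases h6 : i.val < k
      · by_cases h7 : (partner hN i).val < k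
        · rw [h2 _ h6, h2 _ h7]; exact hJ i h6 h7
        · have h8 : partner hN i = ⟨k, hk⟩ := Fin.ext (by simp only; omega)
          rw [h8, h3, ← h8, partner_partner, h2 i h6]
      · have h8 : i = ⟨k, hk⟩ := Fin.ext (by simp only; omega)
        rw [h8, h3, partner_partner, h2 _ (by omega)]
  · intro k hk hmk σ hJ i h1 h2
    have hk0 : k % 2 = 0 := by
      by_contra h
      exact hmk (hm k hk (by omega))
    apply hJ i
    · simp only [partner] at h2
      split_ifs at h2 <;> omega
    · simp only [partner] at h2 ⊢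
      split_ifs at h2 ⊢ <;> omega

theorem closure_ne_top_of_pair (hN3 : 3 ≤ N) (hN : N % 2 = 0) {σ τ : Perm (Fin N)}
    (hσ : ∀ i, σ (partner hN i) = partner hN (σ i))
    (hτ : ∀ i, τ (partner hN i) = partner hN (τ i)) : Subgroup.closure {σ, τ} ≠ ⊤ := by
  intro h
  let ρ : Perm (Fin N) := Function.Involutive.toPerm (partner hN) (partner_partner hN)
  have h1 : Subgroup.closure {σ, τ} ≤ Subgroup.centralizer {ρ} := by
    rw [Subgroup.closure_le]
    rintro x (rfl | rfl)
    · exact Subgroup.mem_centralizer_singleton_iff.mpr (Equiv.ext hσ)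
    · exact Subgroup.mem_centralizer_singleton_iff.mpr (Equiv.ext hτ)
  rw [h] at h1
  have h2 := Subgroup.mem_centralizer_singleton_iff.mp
    (h1 (Subgroup.mem_top (swap (⟨1, by omega⟩ : Fin N) ⟨2, by omega⟩)))
  have h3 := congrArg (fun g : Perm (Fin N) => (g ⟨0, by omega⟩).val) h2
  have e0 : ρ ⟨0, by omega⟩ = ⟨1, by omega⟩ := Fin.ext (by simp [ρ, partner])
  simp only [Perm.mul_apply] at h3
  rw [e0, swap_apply_left, swap_apply_of_ne_of_ne (by simp) (by simp), e0] at h3
  simp at h3

theorem B_wins_I (hN : 3 ≤ N) :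
    Wins N (fun t => t % N % 2 = 1) (fun σ τ => Subgroup.closure {σ, τ} ≠ ⊤) := by
  rcases Nat.mod_two_eq_zero_or_one N with h | h
  · refine wins_of_forces _ _ _ (forces_pair (by omega) h _ ?_ ?_) (fun σ hσ =>
      (forces_pair (by omega) h _ ?_ ?_).mono fun τ hτ => closure_ne_top_of_pair hN h hσ hτ)
    · intro k hk h1; rwa [Nat.mod_eq_of_lt hk]
    · intro k hk h1; rwa [Nat.mod_eq_of_lt hk] at h1
    · intro k hk h1; rwa [Nat.add_mod_left, Nat.mod_eq_of_lt hk]
    · intro k hk h1; rwa [Nat.add_mod_left, Nat.mod_eq_of_lt hk] at h1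
  · refine wins_of_forces _ _ _ (forces_sign (by omega) _ ?_ 1) (fun σ hσ =>
      (forces_sign (by omega) _ ?_ 1).mono fun τ hτ => closure_ne_top_of_sign (by omega) hσ hτ)
    · rw [Nat.mod_eq_of_lt (by omega : N - 2 < N)]; omega
    · rw [Nat.add_mod_left, Nat.mod_eq_of_lt (by omega : N - 2 < N)]; omega

theorem A_wins_one (mine : ℕ → Prop) :
    Wins 1 mine (fun σ τ => Subgroup.closure {σ, τ} = ⊤) :=
  wins_of_forces _ _ _ (forces_true one_pos _) fun _ _ =>
    (forces_true one_pos _).mono fun _ _ => Subsingleton.elim _ _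

theorem A_wins_two (mine : ℕ → Prop) (hm : mine 0) :
    Wins 2 mine (fun σ τ => Subgroup.closure {σ, τ} = ⊤) := by
  refine wins_of_forces _ _ _ (forces_sign le_rfl _ hm (-1)) fun σ hσ =>
    (forces_true two_pos _).mono fun τ _ => ?_
  rw [eq_top_iff]
  intro g _
  have : ∀ g σ : Perm (Fin 2), Perm.sign σ = -1 → g = 1 ∨ g = σ := by decide
  rcases this g σ hσ with rfl | rfl
  · exact Subgroup.one_mem _
  · exact Subgroup.subset_closure (Or.inl rfl)

theorem main_I (hN : 1 ≤ N) :
    (Wins N (fun t => t % N % 2 = 0) (fun σ τ => Subgroup.closure {σ, τ} = ⊤) ↔ N ≤ 2) ∧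
    (Wins N (fun t => t % N % 2 = 1) (fun σ τ => Subgroup.closure {σ, τ} ≠ ⊤) ↔ 3 ≤ N) := by
  have hex : Wins N (fun t => t % N % 2 = 0) (fun σ τ => Subgroup.closure {σ, τ} = ⊤) →
      Wins N (fun t => t % N % 2 = 1) (fun σ τ => Subgroup.closure {σ, τ} ≠ ⊤) → False :=
    not_wins_both _ _ _ _ (fun t => by omega) (fun σ τ h h' => h' h)
  have hA : N ≤ 2 →
      Wins N (fun t => t % N % 2 = 0) (fun σ τ => Subgroup.closure {σ, τ} = ⊤) := by
    intro h
    obtain rfl | rfl : N = 1 ∨ N = 2 := by omega
    · exact A_wins_one _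
    · exact A_wins_two _ rfl
  refine ⟨⟨fun h => ?_, hA⟩, fun h => ?_, B_wins_I⟩
  · by_contra h'
    exact hex h (B_wins_I (by omega))
  · by_contra h'
    exact hex (hA (by omega)) h

end Pool.Agent.Lib.MP_337ab5_co
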