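import Mathlib
import Pool.Agent.Lib.MP_337ab5_co.Q1

set_option autoImplicit false

namespace Pool.Agent.Lib.MP_337ab5_co

open Equiv

variable {N : ℕ}

/-- Number of labels used by a labelling. -/
def nlab (f : Fin N → ℕ) : ℕ := (Finset.univ.image f).card

theorem exists_merge (f : Fin N → ℕ) (a b : Fin N) : ∃ f' : Fin N → ℕ,
    f' a = f' b ∧ (∀ x y, f x = f y → f' x = f' y) ∧ nlab f ≤ nlab f' + 1 := by
  classical
  refine ⟨fun x => if f x = f a then f b else f x, ?_, fun x y h => by simp only [h], ?_⟩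
  · by_cases h : f b = f a <;> simp [h]
  · unfold nlab
    refine le_trans (Finset.card_le_card (t := insert (f a) (Finset.univ.image
      fun x => if f x = f a then f b else f x)) ?_) (Finset.card_insert_le _ _)
    intro y hy
    obtain ⟨x, -, rfl⟩ := Finset.mem_image.mp hy
    by_cases h : f x = f a
    · rw [h]; exact Finset.mem_insert_self _ _
    · exact Finset.mem_insert_of_mem (Finset.mem_image.mpr ⟨x, Finset.mem_univ _, by simp [h]⟩)

theorem lab_swap {f : Fin N → ℕ} {ρ : Perm (Fin N)} (h : ∀ i, f (ρ i) = f i) {a b : Fin N}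
    (hab : f a = f b) (i : Fin N) : f ((ρ * swap a b) i) = f i := by
  rw [Perm.mul_apply, h]
  by_cases h1 : i = a
  · rw [h1, swap_apply_left, hab]
  · by_cases h2 : i = b
    · rw [h2, swap_apply_right, hab]
    · rw [swap_apply_of_ne_of_ne h1 h2]

theorem closure_ne_top_of_lab {σ τ : Perm (Fin N)} {f : Fin N → ℕ} (hσ : ∀ i, f (σ i) = f i)
    (hτ : ∀ i, f (τ i) = f i) (h2 : 2 ≤ nlab f) : Subgroup.closure {σ, τ} ≠ ⊤ := by
  intro h
  have key : ∀ g ∈ Subgroup.closure ({σ, τ} : Set (Perm (Fin N))), ∀ i, f (g i) = f i := by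
    intro g hg
    induction hg using Subgroup.closure_induction with
    | mem x hx => rcases hx with rfl | rfl <;> assumption
    | one => intro i; rfl
    | mul x y _ _ hx hy => intro i; rw [Perm.mul_apply, hx, hy]
    | inv x _ hx => intro i; rw [← hx (x⁻¹ i)]; simp
  obtain ⟨u, hu, v, hv, huv⟩ := Finset.one_lt_card.mp (show 1 < nlab f from h2)
  obtain ⟨a, -, rfl⟩ := Finset.mem_image.mp hu
  obtain ⟨b, -, rfl⟩ := Finset.mem_image.mp hv
  have := key (swap a b) (h ▸ Subgroup.mem_top _) a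
  rw [swap_apply_left] at this
  exact huv this.symm

/-- The entry chosen at position `k` is the entry of any completion at a position `u ≥ k`. -/
theorem step_cases {k : ℕ} (hk : k < N) {ρ σ : Perm (Fin N)}
    (h : ∀ i : Fin N, i.val < k → ρ i = σ i) :
    (∀ i : Fin N, i.val < k + 1 → ρ i = σ i) ∨
    ∃ u : Fin N, k < u.val ∧ ∀ i : Fin N, i.val < k + 1 → (ρ * swap ⟨k, hk⟩ u) i = σ i := by
  obtain ⟨u, hu⟩ := ρ.surjective (σ ⟨k, hk⟩)
  rcases lt_trichotomy u.val k with h1 | h1 | h1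
  · have := congrArg Fin.val (σ.injective ((h u h1).symm.trans hu))
    simp only at this
    omega
  · left
    intro i hi
    by_cases h2 : i.val < k
    · exact h i h2
    · have e1 : i = ⟨k, hk⟩ := Fin.ext (by simp only; omega)
      have e2 : u = ⟨k, hk⟩ := Fin.ext h1
      rw [e1, ← hu, e2]
  · right
    refine ⟨u, h1, fun i hi => ?_⟩
    by_cases h2 : i.val < k
    · rw [Perm.mul_apply, swap_apply_of_ne_of_ne, h i h2]
      · intro e; have := congrArg Fin.val e; simp only at this; omega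
      · intro e; have := congrArg Fin.val e; omega
    · have e1 : i = ⟨k, hk⟩ := Fin.ext (by simp only; omega)
      rw [e1, Perm.mul_apply, swap_apply_left, hu]

theorem keep_move {k : ℕ} (hk : k < N) {ρ σ : Perm (Fin N)}
    (h : ∀ i : Fin N, i.val < k → ρ i = σ i) :
    (∀ i : Fin N, i.val < k → σ i ≠ ρ ⟨k, hk⟩) ∧
    ∀ σ' : Perm (Fin N), (∀ i : Fin N, i.val < k → σ' i = σ i) → σ' ⟨k, hk⟩ = ρ ⟨k, hk⟩ →
      ∀ i : Fin N, i.val < k + 1 → ρ i = σ' i := by
  refine ⟨fun i hi e => ?_, fun σ' h1 h2 i hi => ?_⟩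
  · rw [← h i hi] at e
    have := congrArg Fin.val (ρ.injective e)
    simp only at this
    omega
  · by_cases h3 : i.val < k
    · rw [h1 i h3, h i h3]
    · have e1 : i = ⟨k, hk⟩ := Fin.ext (by simp only; omega)
      rw [e1, h2]

/-- First word, odd `N`: B closes a cycle at each of his moves. -/
theorem forces_close (hN : N % 2 = 1) (mine : ℕ → Prop) (hm : ∀ k < N, k % 2 = 1 → mine k) :
    Forces N mine (fun σ => ∃ (f : Fin N → ℕ) (p : ℕ), (∀ i, f (σ i) = f i) ∧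
      Perm.sign σ = (-1) ^ p ∧ N ≤ nlab f + p ∧ 2 * p + 1 ≤ N) := by
  refine (forces_of_inv (by omega) mine (fun k σ => ∃ (ρ : Perm (Fin N)) (f : Fin N → ℕ) (p : ℕ),
    (∀ i : Fin N, i.val < k → ρ i = σ i) ∧ (∀ i, f (ρ i) = f i) ∧
      Perm.sign ρ = (-1) ^ p ∧ N ≤ nlab f + p ∧ 2 * p + 1 ≤ N ∧ 2 * p ≤ k + 1) ?_ ?_ ?_).mono ?_
  · intro σ
    refine ⟨1, Fin.val, 0, fun i hi => by omega, fun _ => rfl, by simp, ?_, by omega, by omega⟩
    unfold nlab
    rw [Finset.card_image_of_injective _ Fin.val_injective]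
    simp
  · rintro k hk - σ ⟨ρ, f, p, h1, h2, h3, h4, h5, h6⟩
    exact ⟨ρ ⟨k, hk⟩, (keep_move hk h1).1, fun σ' e1 e2 =>
      ⟨ρ, f, p, (keep_move hk h1).2 σ' e1 e2, h2, h3, h4, h5, by omega⟩⟩
  · rintro k hk hmk σ ⟨ρ, f, p, h1, h2, h3, h4, h5, h6⟩
    have hk0 : k % 2 = 0 := by
      by_contra h
      exact hmk (hm k hk (by omega))
    rcases step_cases hk h1 with h | ⟨u, hu, h⟩
    · exact ⟨ρ, f, p, h, h2, h3, h4, h5, by omega⟩
    · obtain ⟨f', e1, e2, e3⟩ := exists_merge f ⟨k, hk⟩ u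
      have := u.2
      refine ⟨_, f', p + 1, h, lab_swap (fun i => e2 _ _ (h2 i)) e1, ?_, by omega, by omega,
        by omega⟩
      rw [Perm.sign_mul, Perm.sign_swap, h3, pow_succ]
      intro e; have := congrArg Fin.val e; simp only at this; omega
  · rintro σ ⟨ρ, f, p, h1, h2, h3, h4, h5, -⟩
    have : ρ = σ := Equiv.ext fun i => h1 i i.2
    subst this
    exact ⟨f, p, h2, h3, h4, h5⟩

/-- The decisive move of B in the second word. -/
theorem last_move (hN : N % 4 = 1) (hN5 : 5 ≤ N) {σ ρ : Perm (Fin N)} {f : Fin N → ℕ} {p : ℕ}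
    (hσ : ∀ i, f (σ i) = f i) (hρ : ∀ i, f (ρ i) = f i) (hs : Perm.sign σ = (-1) ^ p)
    (hc : N ≤ nlab f + p + (N - 3) / 2) (hp : 2 * p + 1 ≤ N) :
    ∃ ρ' : Perm (Fin N), (∀ i : Fin N, i.val < N - 3 → ρ' i = ρ i) ∧
      ∀ τ : Perm (Fin N), (∀ i : Fin N, i.val < N - 2 → ρ' i = τ i) →
        Subgroup.closure {σ, τ} ≠ ⊤ := by
  classical
  let a : Fin N := ⟨N - 3, by omega⟩
  let b : Fin N := ⟨N - 2, by omega⟩
  let c : Fin N := ⟨N - 1, by omega⟩
  have hbc : b ≠ c := by intro e; have := congrArg Fin.val e; simp only [b, c] at this; omega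
  have two : ∀ ρ' τ : Perm (Fin N), (∀ i : Fin N, i.val < N - 2 → ρ' i = τ i) →
      τ = ρ' ∨ τ = ρ' * swap b c := by
    intro ρ' τ h
    rcases step_cases (by omega : N - 2 < N) h with h | ⟨u, hu, h⟩
    · exact Or.inl (perm_eq_of_agree fun i hi => (h i (by omega)).symm)
    · have e : u = c := Fin.ext (by have := u.2; simp only [c]; omega)
      rw [e] at h
      exact Or.inr (perm_eq_of_agree fun i hi => (h i (by omega)).symm)
  have odd : ∀ ρ' : Perm (Fin N), (∀ i, f (ρ' i) = f i) → Perm.sign σ = 1 →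
      Perm.sign ρ' = -1 → ∀ τ : Perm (Fin N), (∀ i : Fin N, i.val < N - 2 → ρ' i = τ i) →
        Subgroup.closure {σ, τ} ≠ ⊤ := by
    intro ρ' h1 h2 h3 τ h
    rcases two ρ' τ h with rfl | rfl
    · exact closure_ne_top_of_lab hσ h1 (by omega)
    · exact closure_ne_top_of_sign (by omega) h2
        (by rw [Perm.sign_mul, Perm.sign_swap hbc, h3]; decide)
  by_cases h3 : 3 ≤ nlab f
  · refine ⟨ρ, fun _ _ => rfl, fun τ h => ?_⟩
    rcases two ρ τ h with rfl | rfl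
    · exact closure_ne_top_of_lab hσ hρ (by omega)
    · obtain ⟨f', e1, e2, e3⟩ := exists_merge f b c
      exact closure_ne_top_of_lab (fun i => e2 _ _ (hσ i))
        (lab_swap (fun i => e2 _ _ (hρ i)) e1) (by omega)
  by_cases h4 : f b = f c
  · refine ⟨ρ, fun _ _ => rfl, fun τ h => ?_⟩
    rcases two ρ τ h with rfl | rfl
    · exact closure_ne_top_of_lab hσ hρ (by omega)
    · exact closure_ne_top_of_lab hσ (lab_swap hρ h4) (by omega)
  have hs1 : Perm.sign σ = 1 := by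
    rw [hs]
    exact Even.neg_one_pow ⟨p / 2, by omega⟩
  by_cases h5 : Perm.sign ρ = -1
  · exact ⟨ρ, fun _ _ => rfl, odd ρ hρ hs1 h5⟩
  have h6 : Perm.sign ρ = 1 := (Int.units_eq_one_or _).resolve_right h5
  have h7 : ∃ u : Fin N, N - 3 < u.val ∧ f a = f u := by
    by_contra hcon
    push Not at hcon
    have hb := hcon b (by simp only [b]; omega)
    have hc' := hcon c (by simp only [c]; omega)
    apply h3
    refine le_trans (le_of_eq (Finset.card_eq_three.mpr ⟨f a, f b, f c, hb, hc', h4, rfl⟩).symm)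
      (Finset.card_le_card ?_)
    intro y hy
    simp only [Finset.mem_insert, Finset.mem_singleton] at hy
    rcases hy with rfl | rfl | rfl <;> exact Finset.mem_image_of_mem _ (Finset.mem_univ _)
  obtain ⟨u, hu, hau⟩ := h7
  refine ⟨ρ * swap a u, fun i hi => ?_, odd _ (lab_swap hρ hau) hs1 ?_⟩
  · rw [Perm.mul_apply, swap_apply_of_ne_of_ne]
    · intro e; have := congrArg Fin.val e; simp only [a] at this; omega
    · intro e; have := congrArg Fin.val e; omega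
  · rw [Perm.sign_mul, Perm.sign_swap, h6, one_mul]
    intro e; have := congrArg Fin.val e; simp only [a] at this; omega

/-- Second word, `N ≡ 1 (mod 4)`: B never joins two orbits and fixes the sign at the end. -/
theorem forces_second (hN : N % 4 = 1) (hN5 : 5 ≤ N) (mine : ℕ → Prop)
    (hm : ∀ k < N, k % 2 = 0 → mine k) {σ : Perm (Fin N)} {f₀ : Fin N → ℕ} {p : ℕ}
    (hσ : ∀ i, f₀ (σ i) = f₀ i) (hs : Perm.sign σ = (-1) ^ p) (hc : N ≤ nlab f₀ + p)
    (hp : 2 * p + 1 ≤ N) : Forces N mine (fun τ => Subgroup.closure {σ, τ} ≠ ⊤) := by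
  refine (forces_of_inv (by omega) mine (fun k τ =>
    (k ≤ N - 3 → ∃ (ρ : Perm (Fin N)) (f : Fin N → ℕ), (∀ i : Fin N, i.val < k → ρ i = τ i) ∧
      (∀ i, f (σ i) = f i) ∧ (∀ i, f (ρ i) = f i) ∧ N ≤ nlab f + p + k / 2) ∧
    (N - 3 < k → ∀ τ' : Perm (Fin N), (∀ i : Fin N, i.val < N - 2 → τ i = τ' i) →
      Subgroup.closure {σ, τ'} ≠ ⊤)) ?_ ?_ ?_).mono
    (fun τ h => h.2 (by omega) τ fun _ _ => rfl)
  · intro τ
    exact ⟨fun _ => ⟨1, f₀, fun i hi => by omega, hσ, fun _ => rfl, by omega⟩,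
      fun h => by omega⟩
  · rintro k hk - τ ⟨hJ1, hJ2⟩
    rcases lt_trichotomy k (N - 3) with h | h | h
    · obtain ⟨ρ, f, h1, h2, h3, h4⟩ := hJ1 h.le
      exact ⟨ρ ⟨k, hk⟩, (keep_move hk h1).1, fun σ' e1 e2 =>
        ⟨fun _ => ⟨ρ, f, (keep_move hk h1).2 σ' e1 e2, h2, h3, by omega⟩, fun h' => by omega⟩⟩
    · obtain ⟨ρ, f, h1, h2, h3, h4⟩ := hJ1 h.le
      subst h
      obtain ⟨ρ', h5, h6⟩ := last_move hN hN5 h2 h3 hs h4 hp
      have h7 : ∀ i : Fin N, i.val < N - 3 → ρ' i = τ i := fun i hi => (h5 i hi).trans (h1 i hi)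
      refine ⟨ρ' ⟨_, hk⟩, (keep_move hk h7).1, fun σ' e1 e2 =>
        ⟨fun h' => by omega, fun _ τ' h8 => h6 τ' fun i hi => ?_⟩⟩
      have hi' : i.val < N - 3 + 1 := by
        clear hJ1 hJ2
        omega
      rw [(keep_move hk h7).2 σ' e1 e2 i hi', h8 i hi]
    · refine ⟨τ ⟨k, hk⟩, (keep_move hk fun _ _ => rfl).1, fun σ' e1 _ =>
        ⟨fun h' => by omega, fun _ τ' h8 => hJ2 h τ' fun i hi => ?_⟩⟩
      rw [← e1 i (by omega), h8 i hi]
  · rintro k hk hmk τ ⟨hJ1, hJ2⟩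
    have hk1 : k % 2 = 1 := by
      by_contra h
      exact hmk (hm k hk (by omega))
    refine ⟨fun h => ?_, fun h => hJ2 (by omega)⟩
    obtain ⟨ρ, f, h1, h2, h3, h4⟩ := hJ1 (by omega)
    rcases step_cases hk h1 with h' | ⟨u, hu, h'⟩
    · exact ⟨ρ, f, h', h2, h3, by omega⟩
    · obtain ⟨f', e1, e2, e3⟩ := exists_merge f ⟨k, hk⟩ u
      exact ⟨_, f', h', fun i => e2 _ _ (h2 i), lab_swap (fun i => e2 _ _ (h3 i)) e1, by omega⟩

theorem B_wins_II (hN : 4 ≤ N) (h4 : N % 4 ≠ 3) :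
    Wins N (fun t => t % 2 = 1) (fun σ τ => Subgroup.closure {σ, τ} ≠ ⊤) := by
  rcases Nat.mod_two_eq_zero_or_one N with h | h
  · refine wins_of_forces _ _ _ (forces_pair (by omega) h _ (fun _ _ h1 => h1) (fun _ _ h1 => h1))
      (fun σ hσ => (forces_pair (by omega) h _ ?_ ?_).mono
        fun τ hτ => closure_ne_top_of_pair (by omega) h hσ hτ)
    · intro k _ h1; omega
    · intro k _ h1; omega
  · refine wins_of_forces _ _ _ (forces_close h _ fun _ _ h1 => h1) ?_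
    rintro σ ⟨f, p, h1, h2, h3, h5⟩
    exact forces_second (by omega) (by omega) _ (fun k _ hk => by omega) h1 h2 h3 h5

theorem gen_three : ∀ σ τ g : Perm (Fin 3), σ 0 = 1 →
    (σ 1 = 0 ∧ (τ 0 = 2 ∨ τ 1 = 2) ∨ σ 1 ≠ 0 ∧ Perm.sign τ = -1) →
    g = 1 ∨ g = σ ∨ g = τ ∨ g = σ * τ ∨ g = τ * σ ∨ g = σ * σ ∨ g = τ * τ ∨ g = σ * τ * σ := by
  decide +kernel

theorem A_wins_three :
    Wins 3 (fun t => t % 2 = 0) (fun σ τ => Subgroup.closure {σ, τ} = ⊤) := by
  have fin : ∀ σ τ : Perm (Fin 3), σ 0 = 1 →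
      (σ 1 = 0 ∧ (τ 0 = 2 ∨ τ 1 = 2) ∨ σ 1 ≠ 0 ∧ Perm.sign τ = -1) →
      Subgroup.closure {σ, τ} = ⊤ := by
    intro σ τ h1 h2
    rw [eq_top_iff]
    intro g _
    have hσ : σ ∈ Subgroup.closure ({σ, τ} : Set (Perm (Fin 3))) :=
      Subgroup.subset_closure (Or.inl rfl)
    have hτ : τ ∈ Subgroup.closure ({σ, τ} : Set (Perm (Fin 3))) :=
      Subgroup.subset_closure (Or.inr rfl)
    rcases gen_three σ τ g h1 h2 with h | h | h | h | h | h | h | h <;> rw [h]
    exacts [one_mem _, hσ, hτ, mul_mem hσ hτ, mul_mem hτ hσ, mul_mem hσ hσ, mul_mem hτ hτ,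
      mul_mem (mul_mem hσ hτ) hσ]
  refine wins_of_forces _ (fun σ => σ 0 = 1) _ ?_ fun σ hσ => ?_
  · refine (forces_of_inv (by omega) _ (fun k σ => 1 ≤ k → σ 0 = 1) (fun _ h => by omega)
      ?_ ?_).mono fun σ h => h (by omega)
    · intro k hk _ σ hJ
      rcases Nat.eq_zero_or_pos k with rfl | h
      · exact ⟨1, fun i hi => by omega, fun σ' _ h _ => h⟩
      · exact ⟨σ ⟨k, hk⟩, (keep_move hk fun _ _ => rfl).1, fun σ' e _ _ =>
          (e 0 h).trans (hJ h)⟩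
    · intro k _ hk σ hJ _
      exact hJ (by omega)
  · by_cases h : σ 1 = 0
    · refine (forces_of_inv (by omega) _ (fun k τ => 2 ≤ k → τ 0 = 2 ∨ τ 1 = 2)
        (fun _ h => by omega) ?_ ?_).mono fun τ h' => fin σ τ hσ (Or.inl ⟨h, h' (by omega)⟩)
      · intro k hk hm τ _
        obtain rfl : k = 1 := by omega
        by_cases h0 : τ 0 = 2
        · exact ⟨τ ⟨1, hk⟩, (keep_move hk fun _ _ => rfl).1, fun τ' e _ _ =>
            Or.inl ((e 0 Nat.one_pos).trans h0)⟩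
        · refine ⟨2, fun i hi => ?_, fun τ' _ e _ => Or.inr e⟩
          rwa [show i = 0 from Fin.ext (by simpa using hi)]
      · intro k _ hk τ hJ _
        exact hJ (by omega)
    · exact (forces_sign (by omega) (fun t => (3 + t) % 2 = 0) rfl (-1)).mono
        fun τ h' => fin σ τ hσ (Or.inr ⟨h, h'⟩)

theorem main_II (hN : 1 ≤ N) (h4 : N % 4 ≠ 3 ∨ N = 3) :
    (Wins N (fun t => t % 2 = 0) (fun σ τ => Subgroup.closure {σ, τ} = ⊤) ↔ N ≤ 3) ∧
    (Wins N (fun t => t % 2 = 1) (fun σ τ => Subgroup.closure {σ, τ} ≠ ⊤) ↔ 4 ≤ N) := by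
  have hex : Wins N (fun t => t % 2 = 0) (fun σ τ => Subgroup.closure {σ, τ} = ⊤) →
      Wins N (fun t => t % 2 = 1) (fun σ τ => Subgroup.closure {σ, τ} ≠ ⊤) → False :=
    not_wins_both _ _ _ _ (fun t => by omega) (fun σ τ h h' => h' h)
  have hA : N ≤ 3 →
      Wins N (fun t => t % 2 = 0) (fun σ τ => Subgroup.closure {σ, τ} = ⊤) := by
    intro h
    obtain rfl | rfl | rfl : N = 1 ∨ N = 2 ∨ N = 3 := by omega
    · exact A_wins_one _
    · exact A_wins_two _ rfl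
    · exact A_wins_three
  have hB : 4 ≤ N →
      Wins N (fun t => t % 2 = 1) (fun σ τ => Subgroup.closure {σ, τ} ≠ ⊤) :=
    fun h => B_wins_II h (by omega)
  refine ⟨⟨fun h => ?_, hA⟩, fun h => ?_, hB⟩
  · by_contra h'
    exact hex h (hB (by omega))
  · by_contra h'
    exact hex (hA (by omega)) h

end Pool.Agent.Lib.MP_337ab5_co
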